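import Pool.Agent.Helper5.Core2.Defs

/-! Linear algebra over the field with two elements, part 1 (for MP_fafe86_al). -/

set_option autoImplicit false

namespace Pool.Agent.Helper78.Core2

open Pool.Agent.Helper5.Core2

variable {V T : Type*} [AddCommGroup V] [Module (ZMod 2) V] [AddCommGroup T] [Module (ZMod 2) T]
  {q : V → T} {β : V →ₗ[ZMod 2] V →ₗ[ZMod 2] T}

theorem add_self_zmod2 {X : Type*} [AddCommGroup X] [Module (ZMod 2) X] (x : X) : x + x = 0 := by
  have h : (2 : ZMod 2) • x = x + x := two_smul _ x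
  rw [← h]
  have : (2 : ZMod 2) = 0 := by decide
  rw [this, zero_smul]

theorem IsQ_zero (h : IsQ q β) : q 0 = 0 := by
  have := h.hq 0 0
  simp only [add_zero, map_zero] at this
  have h2 : q 0 + 0 = q 0 + q 0 := by rw [add_zero]; exact this
  exact (add_left_cancel h2).symm

theorem IsQ_self (h : IsQ q β) (x : V) : β x x = 0 := by
  have := h.hq x x
  rw [add_self_zmod2 x, add_self_zmod2 (q x), IsQ_zero h, zero_add] at this
  exact this.symm

theorem IsQ_symm (h : IsQ q β) (x y : V) : β x y = β y x := by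
  have h1 := h.hq x y
  have h2 := h.hq y x
  rw [add_comm y x, h1, add_comm (q y) (q x)] at h2
  exact add_left_cancel h2

theorem mem_RR {θ : Module.Dual (ZMod 2) T} {x : V} : x ∈ RR β θ ↔ ∀ y, θ (β x y) = 0 := Iff.rfl

theorem club (h : IsQ q β) (θ : Module.Dual (ZMod 2) T) {x y : V} (hx : θ (q x) = 0)
    (hy : θ (q y) = 0) (hxy : θ (β x y) = 0) :
    x ∈ RR β θ ∨ y ∈ RR β θ ∨ x + y ∈ RR β θ := by
  have hsum : θ (q (x + y)) = 0 := by rw [h.hq, map_add, map_add, hx, hy, hxy]; simp
  have hspan : Submodule.span (ZMod 2) {q x, q y, q (x + y)} ≤ LinearMap.ker θ := by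
    rw [Submodule.span_le]
    intro t ht
    simp only [Set.mem_insert_iff, Set.mem_singleton_iff] at ht
    rcases ht with rfl | rfl | rfl
    · exact hx
    · exact hy
    · exact hsum
  rcases h.star x y with h1 | h1 | h1
  · left; intro v; exact hspan (h1 v)
  · right; left; intro v; exact hspan (h1 v)
  · right; right; intro v; exact hspan (h1 v)

theorem zmod2_cases (a : ZMod 2) : a = 0 ∨ a = 1 := by
  revert a; decide

theorem arf_ne (h : IsQ q β) (θ : Module.Dual (ZMod 2) T) {a b c d : V}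
    (hab : θ (β a b) = 1) (hcd : θ (β c d) = 1) (hac : θ (β a c) = 0) (had : θ (β a d) = 0)
    (hbc : θ (β b c) = 0) (hbd : θ (β b d) = 0) :
    θ (q a) * θ (q b) ≠ θ (q c) * θ (q d) := by
  -- symmetric versions
  have hba : θ (β b a) = 1 := by rw [IsQ_symm h]; exact hab
  have hdc : θ (β d c) = 1 := by rw [IsQ_symm h]; exact hcd
  have hca : θ (β c a) = 0 := by rw [IsQ_symm h]; exact hac
  have hda : θ (β d a) = 0 := by rw [IsQ_symm h]; exact had
  have hcb : θ (β c b) = 0 := by rw [IsQ_symm h]; exact hbc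
  have hdb : θ (β d b) = 0 := by rw [IsQ_symm h]; exact hbd
  have haa : θ (β a a) = 0 := by rw [IsQ_self h]; simp
  have hbb : θ (β b b) = 0 := by rw [IsQ_self h]; simp
  have hcc : θ (β c c) = 0 := by rw [IsQ_self h]; simp
  have hdd : θ (β d d) = 0 := by rw [IsQ_self h]; simp
  -- key: no orthogonal isotropic pair from the two planes
  have key : ∀ x x' y y' : V, θ (β x x') = 1 → θ (β y y') = 1 → θ (β x y) = 0 → θ (β x y') = 0 →
      θ (β y x') = 0 → θ (q x) = 0 → θ (q y) = 0 → False := by
    intro x x' y y' h1 h2 h3 h4 h5 h6 h7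
    rcases club h θ h6 h7 h3 with hh | hh | hh
    · have := hh x'
      rw [h1] at this
      exact one_ne_zero this
    · have := hh y'
      rw [h2] at this
      exact one_ne_zero this
    · have := hh x'
      rw [map_add, LinearMap.add_apply, map_add, h1, h5] at this
      simp at this
  intro heq
  rcases zmod2_cases (θ (q a)) with h1 | h1
  · rcases zmod2_cases (θ (q c)) with h3 | h3
    · exact key a b c d hab hcd hac had hcb h1 h3
    · rcases zmod2_cases (θ (q d)) with h4 | h4
      · exact key a b d c hab hdc had hac hdb h1 h4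
      · rw [h1, h3, h4] at heq
        simp at heq
  · rcases zmod2_cases (θ (q b)) with h2 | h2
    · rcases zmod2_cases (θ (q c)) with h3 | h3
      · exact key b a c d hba hcd hbc hbd hca h2 h3
      · rcases zmod2_cases (θ (q d)) with h4 | h4
        · exact key b a d c hba hdc hbd hbc hda h2 h4
        · rw [h2, h3, h4] at heq
          simp at heq
    · rcases zmod2_cases (θ (q c)) with h3 | h3
      · rw [h1, h2, h3] at heq
        simp at heq
      · rcases zmod2_cases (θ (q d)) with h4 | h4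
        · rw [h1, h2, h4] at heq
          simp at heq
        · -- all ones
          have e1 : θ (q (a + c)) = 0 := by
            rw [h.hq, map_add, map_add, h1, h3, hac]; decide
          have e2 : θ (q (b + d)) = 0 := by
            rw [h.hq, map_add, map_add, h2, h4, hbd]; decide
          have e3 : θ (β (a + c) (b + d)) = 0 := by
            simp only [map_add, LinearMap.add_apply, hab, hcd, had, hcb]; decide
          rcases club h θ e1 e2 e3 with hh | hh | hh
          · have := hh b
            simp only [map_add, LinearMap.add_apply, hab, hcb] at this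
            simp at this
          · have := hh a
            simp only [map_add, LinearMap.add_apply, hba, hda] at this
            simp at this
          · have := hh a
            simp only [map_add, LinearMap.add_apply, haa, hca, hba, hda] at this
            simp at this

/-- One reduction step: split off a hyperbolic plane. -/
theorem split_step [Finite V] (h : IsQ q β) (θ : Module.Dual (ZMod 2) T)
    (W : Submodule (ZMod 2) V) (hRW : RR β θ ≤ W)
    (hrad : ∀ w ∈ W, (∀ w' ∈ W, θ (β w w') = 0) → w ∈ RR β θ) (hne : W ≠ RR β θ) :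
    ∃ x ∈ W, ∃ y ∈ W, θ (β x y) = 1 ∧ ∃ W' : Submodule (ZMod 2) V, RR β θ ≤ W' ∧ W' ≤ W ∧
      (∀ w ∈ W', θ (β x w) = 0 ∧ θ (β y w) = 0) ∧
      (∀ w ∈ W', (∀ w' ∈ W', θ (β w w') = 0) → w ∈ RR β θ) ∧
      Module.finrank (ZMod 2) W = Module.finrank (ZMod 2) W' + 2 := by
  have : Module.Finite (ZMod 2) V := Module.Finite.of_finite
  obtain ⟨x, hxW, hxR⟩ : ∃ x ∈ W, x ∉ RR β θ := by
    by_contra hcon
    push Not at hcon
    exact hne (le_antisymm hcon hRW)
  obtain ⟨y, hyW, hxy⟩ : ∃ y ∈ W, θ (β x y) ≠ 0 := by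
    by_contra hcon
    push Not at hcon
    exact hxR (hrad x hxW hcon)
  have hxy1 : θ (β x y) = 1 := by
    rcases zmod2_cases (θ (β x y)) with h0 | h1
    · exact absurd h0 hxy
    · exact h1
  have hyx1 : θ (β y x) = 1 := by rw [IsQ_symm h]; exact hxy1
  have hxx : θ (β x x) = 0 := by rw [IsQ_self h]; simp
  have hyy : θ (β y y) = 0 := by rw [IsQ_self h]; simp
  refine ⟨x, hxW, y, hyW, hxy1, ?_⟩
  -- the functional pair
  let f : V →ₗ[ZMod 2] (ZMod 2 × ZMod 2) := (θ.comp (β x)).prod (θ.comp (β y))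
  have hf : ∀ v, f v = (θ (β x v), θ (β y v)) := fun v => rfl
  let W' : Submodule (ZMod 2) V := W ⊓ LinearMap.ker f
  have hmem : ∀ v, v ∈ W' ↔ v ∈ W ∧ θ (β x v) = 0 ∧ θ (β y v) = 0 := by
    intro v
    simp only [W', Submodule.mem_inf, LinearMap.mem_ker, hf, Prod.mk_eq_zero]
  refine ⟨W', ?_, inf_le_left, ?_, ?_, ?_⟩
  · intro r hr
    rw [hmem]
    refine ⟨hRW hr, ?_, ?_⟩
    · rw [IsQ_symm h]; exact hr x
    · rw [IsQ_symm h]; exact hr y
  · intro w hw
    exact ((hmem w).1 hw).2
  · intro w hw hw'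
    obtain ⟨hwW, hwx, hwy⟩ := (hmem w).1 hw
    apply hrad w hwW
    intro u hu
    -- u' = u + b(y,u) x + b(x,u) y
    have hu' : u + θ (β y u) • x + θ (β x u) • y ∈ W' := by
      rw [hmem]
      refine ⟨W.add_mem (W.add_mem hu (W.smul_mem _ hxW)) (W.smul_mem _ hyW), ?_, ?_⟩
      · simp only [map_add, map_smul, hxx, hxy1, smul_eq_mul, mul_zero, mul_one, add_zero]
        exact add_self_zmod2 _
      · simp only [map_add, map_smul, hyy, hyx1, smul_eq_mul, mul_zero, mul_one, add_zero]
        exact add_self_zmod2 _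
    have h1 := hw' _ hu'
    have hwx' : θ (β w x) = 0 := by rw [IsQ_symm h]; exact hwx
    have hwy' : θ (β w y) = 0 := by rw [IsQ_symm h]; exact hwy
    simpa only [map_add, map_smul, hwx', hwy', smul_zero, add_zero] using h1
  · -- dimension count
    let g : W →ₗ[ZMod 2] (ZMod 2 × ZMod 2) := f.comp W.subtype
    have hsurj : Function.Surjective g := by
      rintro ⟨s, t⟩
      refine ⟨⟨t • x + s • y, W.add_mem (W.smul_mem _ hxW) (W.smul_mem _ hyW)⟩, ?_⟩
      change f (t • x + s • y) = (s, t)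
      rw [hf]
      simp only [map_add, map_smul, hxx, hxy1, hyx1, hyy, smul_eq_mul, mul_zero, mul_one,
        add_zero, zero_add]
    have hrn := LinearMap.finrank_range_add_finrank_ker g
    rw [LinearMap.range_eq_top.2 hsurj, finrank_top] at hrn
    have h2 : Module.finrank (ZMod 2) (ZMod 2 × ZMod 2) = 2 := by
      simp
    rw [h2] at hrn
    have hker : Submodule.map W.subtype (LinearMap.ker g) = W' := by
      ext v
      rw [hmem]
      constructor
      · rintro ⟨w, hw, rfl⟩
        have : g w = 0 := hw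
        have h3 : f (w : V) = 0 := this
        rw [hf, Prod.mk_eq_zero] at h3
        exact ⟨w.2, h3⟩
      · rintro ⟨hvW, hv1, hv2⟩
        refine ⟨⟨v, hvW⟩, ?_, rfl⟩
        change f v = 0
        rw [hf, hv1, hv2]
        rfl
    have h4 : Module.finrank (ZMod 2) (LinearMap.ker g) = Module.finrank (ZMod 2) W' := by
      rw [← hker]
      exact (Submodule.finrank_map_subtype_eq W _).symm
    omega

theorem rank_cases [Finite V] (h : IsQ q β) (θ : Module.Dual (ZMod 2) T) :
    Module.finrank (ZMod 2) V = Module.finrank (ZMod 2) (RR β θ) ∨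
    Module.finrank (ZMod 2) V = Module.finrank (ZMod 2) (RR β θ) + 2 ∨
    (Module.finrank (ZMod 2) V = Module.finrank (ZMod 2) (RR β θ) + 4 ∧
      ∀ r ∈ RR β θ, θ (q r) = 0) := by
  by_cases h0 : (⊤ : Submodule (ZMod 2) V) = RR β θ
  · left
    rw [← h0, finrank_top]
  obtain ⟨x1, -, y1, -, hxy1, W1, hR1, -, horth1, hrad1, hdim1⟩ :=
    split_step h θ ⊤ le_top (fun w _ hw y => hw y trivial) h0
  rw [finrank_top] at hdim1
  by_cases h1 : W1 = RR β θ
  · right; left
    rw [hdim1, h1]
  obtain ⟨x2, hx2, y2, hy2, hxy2, W2, hR2, hW21, horth2, hrad2, hdim2⟩ :=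
    split_step h θ W1 hR1 hrad1 h1
  have hne12 : ∀ a b c d : V, θ (β a b) = 1 → θ (β c d) = 1 → θ (β a c) = 0 → θ (β a d) = 0 →
      θ (β b c) = 0 → θ (β b d) = 0 → θ (q a) * θ (q b) ≠ θ (q c) * θ (q d) :=
    fun a b c d h1 h2 h3 h4 h5 h6 => arf_ne h θ h1 h2 h3 h4 h5 h6
  by_cases h2 : W2 = RR β θ
  · right; right
    refine ⟨by rw [hdim1, hdim2, h2], ?_⟩
    intro r hr
    by_contra hcon
    have hqr : θ (q r) = 1 := by
      rcases zmod2_cases (θ (q r)) with h0 | h1
      · exact absurd h0 hcon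
      · exact h1
    -- modify
    have hmod : ∀ x : V, ∃ x' : V, θ (q x') = 0 ∧ (∀ v, θ (β x' v) = θ (β x v)) := by
      intro x
      rcases zmod2_cases (θ (q x)) with h0 | h1
      · exact ⟨x, h0, fun v => rfl⟩
      · refine ⟨x + r, ?_, ?_⟩
        · have : θ (β x r) = 0 := by rw [IsQ_symm h]; exact hr x
          rw [h.hq, map_add, map_add, h1, hqr, this]
          decide
        · intro v
          rw [map_add, LinearMap.add_apply, map_add, hr v, add_zero]
    obtain ⟨x1', hq1, hb1⟩ := hmod x1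
    obtain ⟨x2', hq2, hb2⟩ := hmod x2
    have hs : ∀ v, θ (β v x2') = θ (β v x2) := by
      intro v
      rw [IsQ_symm h, hb2, IsQ_symm h]
    refine hne12 x1' y1 x2' y2 (by rw [hb1]; exact hxy1) (by rw [hb2]; exact hxy2)
      (by rw [hb1, hs]; exact (horth1 x2 hx2).1) (by rw [hb1]; exact (horth1 y2 hy2).1)
      (by rw [hs]; exact (horth1 x2 hx2).2) (horth1 y2 hy2).2 ?_
    rw [hq1, hq2, zero_mul, zero_mul]
  · exfalso
    obtain ⟨x3, hx3, y3, hy3, hxy3, W3, -, -, -, -, -⟩ := split_step h θ W2 hR2 hrad2 h2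
    have ha := hne12 x1 y1 x2 y2 hxy1 hxy2 (horth1 x2 hx2).1 (horth1 y2 hy2).1
      (horth1 x2 hx2).2 (horth1 y2 hy2).2
    have hb := hne12 x1 y1 x3 y3 hxy1 hxy3 (horth1 x3 (hW21 hx3)).1 (horth1 y3 (hW21 hy3)).1
      (horth1 x3 (hW21 hx3)).2 (horth1 y3 (hW21 hy3)).2
    have hc := hne12 x2 y2 x3 y3 hxy2 hxy3 (horth2 x3 hx3).1 (horth2 y3 hy3).1
      (horth2 x3 hx3).2 (horth2 y3 hy3).2
    generalize θ (q x1) * θ (q y1) = A at ha hb hc
    generalize θ (q x2) * θ (q y2) = B at ha hb hc
    generalize θ (q x3) * θ (q y3) = C at ha hb hc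
    revert A B C
    decide

theorem iso_bound [Finite V] (h : IsQ q β) (θ : Module.Dual (ZMod 2) T)
    (U : Submodule (ZMod 2) V) (hU : ∀ u ∈ U, ∀ v ∈ U, θ (β u v) = 0) :
    2 * Module.finrank (ZMod 2) U ≤
      Module.finrank (ZMod 2) V + Module.finrank (ZMod 2) (RR β θ) := by
  have : Module.Finite (ZMod 2) V := Module.Finite.of_finite
  let B : LinearMap.BilinForm (ZMod 2) V := β.compr₂ θ
  have hB : ∀ x y, B x y = θ (β x y) := fun x y => rfl
  have hrefl : B.IsRefl := by
    intro x y hxy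
    rw [hB] at hxy ⊢
    rw [IsQ_symm h]; exact hxy
  have hfin := LinearMap.BilinForm.finrank_add_finrank_orthogonal hrefl U
  have h1 : U ≤ B.orthogonal U := by
    intro u hu
    rw [LinearMap.BilinForm.mem_orthogonal_iff]
    intro v hv
    exact hU v hv u hu
  have h2 : U ⊓ B.orthogonal ⊤ ≤ RR β θ := by
    rintro u ⟨-, hu⟩ y
    have hu' := (LinearMap.BilinForm.mem_orthogonal_iff).1 hu y trivial
    rw [IsQ_symm h]; exact hu'
  have h3 := Submodule.finrank_mono h1
  have h4 := Submodule.finrank_mono h2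
  omega

end Pool.Agent.Helper78.Core2
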